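import Pool.Agent.SPN.X2

set_option autoImplicit false

namespace Pool.Agent.Results.MP_8507d5_co.FullClassification

universe u

/-- `v₁(n,h)`, the maximum over the divisors `d` of `n` of `(⌊(d-2)/h⌋ + 1) · n/d`
(integer floor division). -/
def v₁ (n h : ℕ) : ℕ :=
  n.divisors.sup (fun d => (((d : ℤ) - 2) / (h : ℤ) + 1).toNat * (n / d))

/-- The `h`-fold sumset `hA`. -/
def hFold {G : Type*} [AddCommGroup G] (h : ℕ) (A : Set G) : Set G :=
  {x | ∃ f : Fin h → G, (∀ i, f i ∈ A) ∧ ∑ i, f i = x}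

/-- The full preimage of a progression: `G ⧸ N` is cyclic with generator `g + N`, and `A` is the
union of the cosets `x + i g + N`, `0 ≤ i < k`, where `k = ⌊(|G/N| - 2)/h⌋ + 1`. -/
def Progression {G : Type u} [AddCommGroup G] (h : ℕ) (A : Set G) : Prop :=
  ∃ (N : AddSubgroup G) (x g : G) (k : ℕ), AddSubgroup.zmultiples (g : G ⧸ N) = ⊤ ∧
    (k : ℤ) = ((Nat.card (G ⧸ N) : ℤ) - 2) / (h : ℤ) + 1 ∧
    A = {y | ∃ i < k, y - (x + i • g) ∈ N}

/-- `G ⧸ L` is cyclic of order `h t` with generator `g + L`, and `A` consists of the `t - 1` full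
cosets `x + i g + L`, `0 ≤ i < t - 1`, of the coset `x + (t-1) g + L` minus one coset `u + K` of a
subgroup `K ≤ L`, and of one coset `v + K` inside `x + t g + L`. -/
def Exchanged {G : Type u} [AddCommGroup G] (h : ℕ) (A : Set G) : Prop :=
  ∃ (K L : AddSubgroup G) (x g u v : G) (t : ℕ), K ≤ L ∧ 1 ≤ t ∧
    AddSubgroup.zmultiples (g : G ⧸ L) = ⊤ ∧ Nat.card (G ⧸ L) = h * t ∧
    u - (x + (t - 1) • g) ∈ L ∧ v - (x + t • g) ∈ L ∧
    A = {y | (∃ i < t - 1, y - (x + i • g) ∈ L) ∨ (y - u ∈ L ∧ y - u ∉ K) ∨ y - v ∈ K}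

/-- `G` is cyclic of order `h k + 1` with generator `g`, and `A = x + S • g` with `S` one of
`{0} ∪ [2, k]`; `{0, 2} ∪ [4, k + 1]` or `{0} ∪ [2, k - 1] ∪ {k + 1}` if `h = 3`;
`{0, 1, 4}` if `h = 4`, `k = 3`. -/
def Sporadic {G : Type u} [AddCommGroup G] (h : ℕ) (A : Set G) : Prop :=
  ∃ (x g : G) (k : ℕ) (S : Set ℕ), AddSubgroup.zmultiples g = ⊤ ∧ Nat.card G = h * k + 1 ∧
    ((2 ≤ k ∧ S = {0} ∪ Set.Icc 2 k) ∨
      (h = 3 ∧ 4 ≤ k ∧ S = {0, 2} ∪ Set.Icc 4 (k + 1)) ∨
      (h = 3 ∧ 4 ≤ k ∧ S = {0, k + 1} ∪ Set.Icc 2 (k - 1)) ∨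
      (h = 4 ∧ k = 3 ∧ S = {0, 1, 4})) ∧
    A = {y | ∃ s ∈ S, y = x + s • g}

/-- The extremal sets: the three basic types, and the step `G ⧸ N` cyclic of order `h t + 1` with
generator `d + N`, `A` = the full cosets `x + j d + N`, `1 ≤ j ≤ t`, together with `x + B`, where
`B ⊆ N` is extremal in `N`. -/
inductive Extremal (h : ℕ) : (G : Type u) → [AddCommGroup G] → Set G → Prop
  | progression {G : Type u} [AddCommGroup G] {A : Set G} (hA : Progression h A) : Extremal h G A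
  | exchanged {G : Type u} [AddCommGroup G] {A : Set G} (hA : Exchanged h A) : Extremal h G A
  | sporadic {G : Type u} [AddCommGroup G] {A : Set G} (hA : Sporadic h A) : Extremal h G A
  | step {G : Type u} [AddCommGroup G] (N : AddSubgroup G) (x d : G) (t : ℕ) (B : Set N)
      (ht : 1 ≤ t) (hd : AddSubgroup.zmultiples (d : G ⧸ N) = ⊤)
      (hq : Nat.card (G ⧸ N) = h * t + 1) (hB : Extremal h N B) {A : Set G}
      (hA : A = {y | (∃ b ∈ B, y = x + (b : G)) ∨
        ∃ j, 1 ≤ j ∧ j ≤ t ∧ y - (x + j • d) ∈ N}) : Extremal h G A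

theorem of_desc {h : ℕ} {G : Type u} [AddCommGroup G] {A : Set G} (hA : SPN.Desc h G A) :
    Extremal h G A := by
  induction hA with
  | ap N x g k hg hk A hA => exact .progression ⟨N, x, g, k, hg, hk, hA⟩
  | two K L hKL x g u v t ht hg hq hu hv A hA =>
    exact .exchanged ⟨K, L, x, g, u, v, t, hKL, ht, hg, hq, hu, hv, hA⟩
  | spor x g k S hg hn hS A hA => exact .sporadic ⟨x, g, k, S, hg, hn, hS, hA⟩
  | step N x d t B ht hd hq hB A hA ih => exact .step N x d t B ht hd hq ih hA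

theorem to_desc {h : ℕ} {G : Type u} [AddCommGroup G] {A : Set G} (hA : Extremal h G A) :
    SPN.Desc h G A := by
  induction hA with
  | progression hA =>
    obtain ⟨N, x, g, k, hg, hk, hA⟩ := hA
    exact .ap N x g k hg hk _ hA
  | exchanged hA =>
    obtain ⟨K, L, x, g, u, v, t, hKL, ht, hg, hq, hu, hv, hA⟩ := hA
    exact .two K L hKL x g u v t ht hg hq hu hv _ hA
  | sporadic hA =>
    obtain ⟨x, g, k, S, hg, hn, hS, hA⟩ := hA
    exact .spor x g k S hg hn hS _ hA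
  | step N x d t B ht hd hq hB hA ih => exact .step N x d t B ht hd hq ih _ hA

/-- **Full answer to Q1.** For every finite abelian group `G` (no parity assumption), every `h ≥ 3`
and every `A ⊆ G` with `|A| = v₁(|G|, h)`: `hA ≠ G` if and only if `A` is the full preimage of a
progression (`Progression`), or all divisors of `|G|` are `0` or `1` modulo `h` and `A` is extremal in
the sense of `Extremal`. -/
theorem result {G : Type u} [AddCommGroup G] [Finite G] (h : ℕ) (hh : 3 ≤ h) (A : Set G)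
    (hA : A.ncard = v₁ (Nat.card G) h) :
    hFold h A ≠ Set.univ ↔ Progression h A ∨
      ((∀ d, d ∣ Nat.card G → d ≡ 0 [MOD h] ∨ d ≡ 1 [MOD h]) ∧ Extremal h G A) := by
  have h1 : hFold h A ≠ Set.univ ↔ SPN.Desc h G A := SPN.full h hh A hA
  constructor
  · intro hne
    by_cases hd : ∃ d, d ∣ Nat.card G ∧ ¬ d ≡ 0 [MOD h] ∧ ¬ d ≡ 1 [MOD h]
    · exact Or.inl ((SPN.ap_case h hh hd A hA).mp hne)
    · refine Or.inr ⟨fun d hdn => ?_, of_desc (h1.mp hne)⟩
      by_contra hcon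
      push Not at hcon
      exact hd ⟨d, hdn, hcon.1, hcon.2⟩
  · rintro (hP | ⟨_, hE⟩)
    · exact h1.mpr (to_desc (.progression hP))
    · exact h1.mpr (to_desc hE)

end Pool.Agent.Results.MP_8507d5_co.FullClassification
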